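import Pool.Agent.Helper93.TCU.Stmts
import Pool.Agent.Helper93.TCU.Bas
import Pool.Agent.Helper3.TCS.Stmts

/-!
# ACTI: the labels, with linear tests (helper89, statement of helper93)
-/

set_option autoImplicit false

namespace Pool.TCU

open Pool.TC Pool.TCM Pool.TCS Finset
open scoped Classical

/-- the difference property of `-F` -/
private theorem acti_neg {V κ : Type} [Fintype V] [Fintype κ] {S : CS V κ} {m K : ℕ} {u : V}
    {W : ℝ} {F : (Lab V κ → Fin (m ^ (2 * K + 1))) → ℝ} {cc : Lab V κ → ℝ}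
    (h : Dif S m K u W F cc) : Dif S m K u W (fun ω => -F ω) cc := by
  refine ⟨h.nn, fun t ω ω' ht => ?_, h.sum, h.loc⟩
  have h1 := h.bd t ω ω' ht
  have h2 : -F ω - -F ω' = -(F ω - F ω') := by ring
  rw [h2, abs_neg]
  exact h1

/-- the zero function -/
private theorem acti_zero {V κ : Type} [Fintype V] [Fintype κ] (S : CS V κ) (m K : ℕ) (u : V) :
    Dif S m K u 1 (fun _ : Lab V κ → Fin (m ^ (2 * K + 1)) => (0 : ℝ)) (fun _ => 0) := by
  refine ⟨fun _ => le_rfl, fun t ω ω' _ => ?_, ?_, fun t ht => absurd rfl ht⟩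
  · rw [sub_self, abs_zero]
  · rw [sum_eq_zero (fun t _ => by norm_num)]
    norm_num

/-- the mean does not depend on the instance -/
private theorem acti_inst {Ω : Type} (i1 i2 : Fintype Ω) (F : Ω → ℝ) :
    (∑ ω ∈ @univ Ω i1, F ω) / (@Fintype.card Ω i1 : ℝ) = @mean Ω i2 F := by
  have e : i1 = i2 := Subsingleton.elim _ _
  subst e
  rfl

/-- the position of an index -/
private def actiP {V J : Type} (U : Finset V) (ctr : J → V) :
    {u : V // u ∈ U} ⊕ (V ⊕ (J ⊕ J)) → V
  | Sum.inl u => u.1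
  | Sum.inr (Sum.inl v) => v
  | Sum.inr (Sum.inr (Sum.inl j)) => ctr j
  | Sum.inr (Sum.inr (Sum.inr j)) => ctr j

/-- the number of indices in a set of positions -/
private theorem acti_card {V J : Type} [Fintype V] [Fintype J] (U : Finset V) (ctr : J → V)
    (D5 : ℕ) (hmul : ∀ v, (univ.filter (fun j => ctr j = v)).card ≤ D5) (P : V → Prop) :
    (univ.filter (fun i : {u : V // u ∈ U} ⊕ (V ⊕ (J ⊕ J)) => P (actiP U ctr i))).card ≤
      (univ.filter P).card * (2 * D5 + 2) := by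
  have h1 : (univ.filter (fun j : J => P (ctr j))).card ≤ D5 * (univ.filter P).card := by
    apply card_le_mul_card_image_of_maps_to (f := ctr)
    · intro j hj
      rw [mem_filter] at hj ⊢
      exact ⟨mem_univ _, hj.2⟩
    · intro v _
      refine le_trans (card_le_card ?_) (hmul v)
      intro j hj
      rw [mem_filter] at hj ⊢
      exact ⟨mem_univ _, hj.2⟩
  have h2 : (univ.filter (fun u : {u : V // u ∈ U} => P u.1)).card ≤ (univ.filter P).card := by
    refine card_le_card_of_injOn (fun u => u.1) (fun u hu => ?_) ?_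
    · rw [mem_coe, mem_filter] at hu ⊢
      exact ⟨mem_univ _, hu.2⟩
    · intro u _ u' _ h
      exact Subtype.ext h
  rw [card_filter] at h1 h2 ⊢
  rw [Fintype.sum_sum_type, Fintype.sum_sum_type, Fintype.sum_sum_type]
  have h3 : ∑ v : V, (if P v then 1 else 0) = (univ.filter P).card := by
    rw [card_filter]
  have e1 : ∑ u : {u : V // u ∈ U}, (if P (actiP U ctr (Sum.inl u)) then 1 else 0) =
      ∑ u : {u : V // u ∈ U}, (if P u.1 then 1 else 0) := rfl
  have e2 : ∑ v : V, (if P (actiP U ctr (Sum.inr (Sum.inl v))) then 1 else 0) =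
      ∑ v : V, (if P v then 1 else 0) := rfl
  have e3 : ∑ j : J, (if P (actiP U ctr (Sum.inr (Sum.inr (Sum.inl j)))) then 1 else 0) =
      ∑ j : J, (if P (ctr j) then 1 else 0) := rfl
  have e4 : ∑ j : J, (if P (actiP U ctr (Sum.inr (Sum.inr (Sum.inr j)))) then 1 else 0) =
      ∑ j : J, (if P (ctr j) then 1 else 0) := rfl
  rw [e1, e2, e3, e4, h3]
  nlinarith

/-- the local lemma with relations -/
private theorem acti_LM (hLM : Pool.TCM.St_LM) (T A J : Type) [Fintype T] [Fintype A] [Nonempty A]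
    [Fintype J] (F : J → (T → A) → ℝ) (c : J → T → ℝ) (V lam : J → ℝ) (Lam : ℝ) (P : J → T → Prop)
    (Q : J → J → Prop) (N : ℕ) (h1 : ∀ j t, 0 ≤ c j t)
    (h2 : ∀ j t (ω ω' : T → A), (∀ t', t' ≠ t → ω t' = ω' t') → |F j ω - F j ω'| ≤ c j t)
    (h3 : ∀ j t, c j t ≠ 0 → P j t) (h4 : ∀ j, ∑ t, c j t ^ 2 ≤ V j) (h5 : ∀ j, 0 < V j)
    (h6 : ∀ j, 0 ≤ lam j)
    (h7 : ∀ j, 2 * V j * Lam ≤ lam j ^ 2) (h8 : ∀ j j' t, P j t → P j' t → Q j j')
    (h9 : ∀ j, (univ.filter (fun j' => Q j j')).card ≤ N)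
    (h10 : 4 * Real.exp (-Lam) * (N + 1) ≤ 1) :
    ∃ ω : T → A, ∀ j, F j ω ≤ (∑ ω', F j ω') / Fintype.card (T → A) + lam j := by
  refine hLM T A J F c V lam (fun j => univ.filter (P j)) Lam N h1 h2
    (fun j t ht => ?_) h4 h5 h6 h7 (fun j => ?_) h10
  · by_contra h
    exact ht (mem_filter.2 ⟨mem_univ _, h3 j t h⟩)
  · refine le_trans (card_le_card fun j' hj' => ?_) (h9 j)
    rw [mem_filter] at hj' ⊢
    obtain ⟨-, t, ht, ht'⟩ := hj'
    exact ⟨mem_univ _, h8 j j' t (mem_filter.1 ht).2 (mem_filter.1 ht').2⟩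

theorem thm_Acti (hLM : Pool.TCM.St_LM) (hNear : Pool.TCS.St_Near) (hM1 : St_M1) (hM2 : St_M2)
    (hM3 : St_M3) (hM4 : St_M4) (hJ1 : St_J1) (hJ2 : St_J2) (hJ3 : St_J3) (hJ4 : St_J4) :
    St_Acti := by
  intro V κ J _ _ _ S U L M D l m K x q Lam ctr T μ o hH hT hG
  obtain ⟨n1, n2, -, n4⟩ := hNear V κ S D hH.deg hH.col
  have hm : 0 < m := by
    have := hH.m192
    omega
  have hne : Nonempty (Fin (m ^ (2 * K + 1))) := ⟨⟨0, pow_pos hm _⟩⟩
  have hl : (0 : ℝ) < l := hH.lpos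
  have hK24 : (24 : ℝ) ≤ K := hH.Kpos
  have hK : (0 : ℝ) < K := by linarith
  have hL : 0 < Lam := hH.Lpos
  have hlL : 0 ≤ (l : ℝ) * Lam := mul_nonneg hl.le hL.le
  -- the data
  have key : ∀ i : {u : V // u ∈ U} ⊕ (V ⊕ (J ⊕ J)),
      ∃ (F : (Lab V κ → Fin (m ^ (2 * K + 1))) → ℝ) (W lam : ℝ) (cc : Lab V κ → ℝ),
        0 < W ∧ 0 ≤ lam ∧ 2 * W * Lam ≤ lam ^ 2 ∧ Dif S m K (actiP U ctr i) W F cc ∧
        ∀ ω, F ω ≤ mean F + lam →
          (match i with
          | Sum.inl u => (∑ a ∈ L u.1 ∩ M u.1, Psi1 S U L l m K x q o u.1 a) -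
              10 * (K : ℝ) ^ 2 - 30 * (K : ℝ) ^ 2 * Real.sqrt (l * Lam) ≤
              G1 S U L M l m K x q o u.1 ω
          | Sum.inr (Sum.inl v) => G2 S U L l m K q o v ω ≤
              (∑ p ∈ Cv S U L v, Psi2 S U L l m K q o p.1 p.2) +
              2 * (1 / 2) ^ K * l + 30 * (K : ℝ) ^ 2 * Real.sqrt (l * Lam)
          | Sum.inr (Sum.inr (Sum.inl j)) => G3 S U L l m K x q o (T j) ω ≤
              (∑ w ∈ U, ∑ b ∈ L w, T j w b * Psi3 S U L l m K x q o w b) +
              2 * (1 / 2) ^ K * nm U L (T j) + (K : ℝ) ^ 2 * Real.sqrt (sq S U L (T j) * Lam)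
          | Sum.inr (Sum.inr (Sum.inr j)) => G4 S U m K o (T j) ω ≤
              bet m K * (∑ w ∈ U, T j w (o w)) +
              4 * K * Real.sqrt (μ j * (∑ w ∈ U, T j w (o w)) * Lam) : Prop) := by
    rintro (u | v | j | j)
    · obtain ⟨cc, hcc⟩ := hJ1 V κ S U L M D l m K x q Lam o hH hG u.1 u.2
      refine ⟨_, 450 * (K : ℝ) ^ 4 * l, 30 * (K : ℝ) ^ 2 * Real.sqrt (l * Lam), cc, by positivity,
        by positivity, ?_, acti_neg hcc, fun ω h1 => ?_⟩
      · rw [mul_pow, mul_pow, Real.sq_sqrt hlL]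
        exact le_of_eq (by ring)
      · have h2 := hM1 V κ S U L M D l m K x q Lam o hH hG u.1 u.2
        have h3 : mean (fun ω' => -G1 S U L M l m K x q o u.1 ω') =
            -mean (G1 S U L M l m K x q o u.1) := by
          unfold mean
          rw [sum_neg_distrib, neg_div]
        rw [h3] at h1
        show (∑ a ∈ L u.1 ∩ M u.1, Psi1 S U L l m K x q o u.1 a) -
              10 * (K : ℝ) ^ 2 - 30 * (K : ℝ) ^ 2 * Real.sqrt (l * Lam) ≤
              G1 S U L M l m K x q o u.1 ω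
        linarith
    · obtain ⟨cc, hcc⟩ := hJ2 V κ S U L D l m K x q Lam o hH hG v
      refine ⟨_, 450 * (K : ℝ) ^ 4 * l, 30 * (K : ℝ) ^ 2 * Real.sqrt (l * Lam), cc, by positivity,
        by positivity, ?_, hcc, fun ω h1 => ?_⟩
      · rw [mul_pow, mul_pow, Real.sq_sqrt hlL]
        exact le_of_eq (by ring)
      · have h2 := hM2 V κ S U L D l m K x q Lam o hH hG v
        show G2 S U L l m K q o v ω ≤ (∑ p ∈ Cv S U L v, Psi2 S U L l m K q o p.1 p.2) +
          2 * (1 / 2) ^ K * l + 30 * (K : ℝ) ^ 2 * Real.sqrt (l * Lam)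
        linarith
    · have hsq0 : 0 ≤ sq S U L (T j) := by
        unfold sq
        exact add_nonneg (sum_nonneg fun _ _ => sq_nonneg _) (sum_nonneg fun _ _ => sq_nonneg _)
      by_cases hsq : sq S U L (T j) = 0
      · refine ⟨fun _ => 0, 1, Real.sqrt (2 * Lam), fun _ => 0, one_pos, Real.sqrt_nonneg _, ?_,
          acti_zero S m K _, fun ω _ => ?_⟩
        · rw [Real.sq_sqrt (by positivity)]
          linarith
        · have hz : ∀ w ∈ U, ∀ b ∈ L w, T j w b = 0 := by
            intro w hw b hb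
            have h1 : ∑ w ∈ U, rs L (T j) w ^ 2 = 0 := by
              have h2 : 0 ≤ ∑ v, cs S U L (T j) v ^ 2 := sum_nonneg fun _ _ => sq_nonneg _
              have h3 : 0 ≤ ∑ w ∈ U, rs L (T j) w ^ 2 := sum_nonneg fun _ _ => sq_nonneg _
              unfold sq at hsq
              linarith
            have h2 := (sum_eq_zero_iff_of_nonneg fun w _ => sq_nonneg _).1 h1 w hw
            have h3 : rs L (T j) w = 0 := pow_eq_zero_iff (two_ne_zero) |>.1 h2
            unfold rs at h3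
            exact (sum_eq_zero_iff_of_nonneg fun b _ => hT.nn j w b).1 h3 b hb
          have h1 : G3 S U L l m K x q o (T j) ω = 0 := by
            unfold G3
            apply sum_eq_zero
            intro w hw
            apply sum_eq_zero
            intro b hb
            rw [hz w hw b hb, ite_self]
          have h2 : ∑ w ∈ U, ∑ b ∈ L w, T j w b * Psi3 S U L l m K x q o w b = 0 := by
            apply sum_eq_zero
            intro w hw
            apply sum_eq_zero
            intro b hb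
            rw [hz w hw b hb, zero_mul]
          have h3 : nm U L (T j) = 0 := by
            unfold nm
            apply sum_eq_zero
            intro w hw
            apply sum_eq_zero
            intro b hb
            exact hz w hw b hb
          show G3 S U L l m K x q o (T j) ω ≤
              (∑ w ∈ U, ∑ b ∈ L w, T j w b * Psi3 S U L l m K x q o w b) +
              2 * (1 / 2) ^ K * nm U L (T j) + (K : ℝ) ^ 2 * Real.sqrt (sq S U L (T j) * Lam)
          rw [h1, h2, h3, hsq, zero_mul, Real.sqrt_zero]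
          simp
      · have hsqp : 0 < sq S U L (T j) := lt_of_le_of_ne hsq0 (Ne.symm hsq)
        obtain ⟨cc, hcc⟩ := hJ3 V κ S U L D l m K x q Lam o (T j) (ctr j) hH hG (hT.nn j) (hT.loc j)
        refine ⟨_, 10 * (K : ℝ) ^ 3 * sq S U L (T j), (K : ℝ) ^ 2 * Real.sqrt (sq S U L (T j) * Lam),
          cc, by positivity, by positivity, ?_, hcc, fun ω h1 => ?_⟩
        · rw [mul_pow, Real.sq_sqrt (by positivity)]
          have h2 : 0 ≤ (K : ℝ) ^ 3 * (sq S U L (T j) * Lam) := by positivity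
          have h3 : 20 * ((K : ℝ) ^ 3 * (sq S U L (T j) * Lam)) ≤
              K * ((K : ℝ) ^ 3 * (sq S U L (T j) * Lam)) :=
            mul_le_mul_of_nonneg_right (by linarith) h2
          calc 2 * (10 * (K : ℝ) ^ 3 * sq S U L (T j)) * Lam
              = 20 * ((K : ℝ) ^ 3 * (sq S U L (T j) * Lam)) := by ring
            _ ≤ K * ((K : ℝ) ^ 3 * (sq S U L (T j) * Lam)) := h3
            _ = ((K : ℝ) ^ 2) ^ 2 * (sq S U L (T j) * Lam) := by ring
        · have h2 := hM3 V κ S U L D l m K x q Lam o (T j) hH hG (hT.nn j)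
          show G3 S U L l m K x q o (T j) ω ≤
              (∑ w ∈ U, ∑ b ∈ L w, T j w b * Psi3 S U L l m K x q o w b) +
              2 * (1 / 2) ^ K * nm U L (T j) + (K : ℝ) ^ 2 * Real.sqrt (sq S U L (T j) * Lam)
          linarith
    · have hs0 : 0 ≤ ∑ w ∈ U, T j w (o w) := sum_nonneg fun w _ => hT.nn j w _
      by_cases hz : μ j * ∑ w ∈ U, T j w (o w) = 0
      · refine ⟨fun _ => 0, 1, Real.sqrt (2 * Lam), fun _ => 0, one_pos, Real.sqrt_nonneg _, ?_,
          acti_zero S m K _, fun ω _ => ?_⟩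
        · rw [Real.sq_sqrt (by positivity)]
          linarith
        · have h0 : ∀ w ∈ U, T j w (o w) = 0 := by
            intro w hw
            rcases mul_eq_zero.1 hz with h1 | h1
            · have h2 := hT.le j w (o w)
              have h3 := hT.nn j w (o w)
              rw [h1] at h2
              linarith
            · exact (sum_eq_zero_iff_of_nonneg fun w _ => hT.nn j w _).1 h1 w hw
          have h1 : G4 S U m K o (T j) ω = 0 := by
            unfold G4
            apply sum_eq_zero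
            intro w hw
            rw [h0 w hw, ite_self]
          have h2 : ∑ w ∈ U, T j w (o w) = 0 := sum_eq_zero h0
          show G4 S U m K o (T j) ω ≤ bet m K * (∑ w ∈ U, T j w (o w)) +
              4 * K * Real.sqrt (μ j * (∑ w ∈ U, T j w (o w)) * Lam)
          rw [h1, h2, mul_zero, mul_zero, zero_mul, Real.sqrt_zero]
          simp
      · have hp : 0 < μ j * ∑ w ∈ U, T j w (o w) :=
          lt_of_le_of_ne (mul_nonneg (hT.pos j) hs0) (Ne.symm hz)
        obtain ⟨cc, hcc⟩ := hJ4 V κ S U L D l m K x q Lam (μ j) o (T j) (ctr j) hH hG (hT.nn j)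
          (hT.le j) (hT.loc j)
        refine ⟨_, 5 * (K : ℝ) ^ 2 * (μ j * ∑ w ∈ U, T j w (o w)),
          4 * K * Real.sqrt (μ j * (∑ w ∈ U, T j w (o w)) * Lam), cc, by positivity,
          by positivity, ?_, hcc, fun ω h1 => ?_⟩
        · rw [mul_pow, Real.sq_sqrt (by positivity)]
          have h2 : 0 ≤ (K : ℝ) ^ 2 * (μ j * (∑ w ∈ U, T j w (o w)) * Lam) := by positivity
          calc 2 * (5 * (K : ℝ) ^ 2 * (μ j * ∑ w ∈ U, T j w (o w))) * Lam
              = 10 * ((K : ℝ) ^ 2 * (μ j * (∑ w ∈ U, T j w (o w)) * Lam)) := by ring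
            _ ≤ 16 * ((K : ℝ) ^ 2 * (μ j * (∑ w ∈ U, T j w (o w)) * Lam)) := by linarith
            _ = (4 * (K : ℝ)) ^ 2 * (μ j * (∑ w ∈ U, T j w (o w)) * Lam) := by ring
        · have h2 := hM4 V κ S U L D l m K x q Lam o (T j) hH hG
          show G4 S U m K o (T j) ω ≤ bet m K * (∑ w ∈ U, T j w (o w)) +
              4 * K * Real.sqrt (μ j * (∑ w ∈ U, T j w (o w)) * Lam)
          rw [h2] at h1
          exact h1
  choose F W lam cc k1 k2 k3 k4 k5 using key
  have hN : ∀ i, (univ.filter (fun i' : {u : V // u ∈ U} ⊕ (V ⊕ (J ⊕ J)) =>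
      near S 16 (actiP U ctr i) (actiP U ctr i'))).card ≤ (3 * D + 2) ^ 24 := by
    intro i
    refine (acti_card U ctr (D ^ 5) hT.mul (fun w => near S 16 (actiP U ctr i) w)).trans ?_
    have h1 : 2 * D ^ 5 + 2 ≤ (3 * D + 2) ^ 8 := by
      have h2 : D ^ 5 ≤ (3 * D + 2) ^ 5 := Nat.pow_le_pow_left (by omega) _
      have h3 : 4 ≤ (3 * D + 2) ^ 3 := by
        calc 4 ≤ 2 ^ 3 := by norm_num
          _ ≤ (3 * D + 2) ^ 3 := Nat.pow_le_pow_left (by omega) _
      have h4 : 1 ≤ (3 * D + 2) ^ 5 := Nat.one_le_pow _ _ (by omega)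
      calc 2 * D ^ 5 + 2 ≤ 2 * (3 * D + 2) ^ 5 + 2 * (3 * D + 2) ^ 5 := by omega
        _ = (3 * D + 2) ^ 5 * 4 := by ring
        _ ≤ (3 * D + 2) ^ 5 * (3 * D + 2) ^ 3 := Nat.mul_le_mul_left _ h3
        _ = (3 * D + 2) ^ 8 := by rw [← pow_add]
    calc (univ.filter (fun w => near S 16 (actiP U ctr i) w)).card * (2 * D ^ 5 + 2)
        ≤ (3 * D + 1) ^ 16 * (3 * D + 2) ^ 8 := Nat.mul_le_mul (n4 16 _) h1
      _ ≤ (3 * D + 2) ^ 16 * (3 * D + 2) ^ 8 :=
          Nat.mul_le_mul_right _ (Nat.pow_le_pow_left (by omega) _)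
      _ = (3 * D + 2) ^ 24 := by rw [← pow_add]
  obtain ⟨ω, hω⟩ := acti_LM hLM (Lab V κ) (Fin (m ^ (2 * K + 1)))
    ({u : V // u ∈ U} ⊕ (V ⊕ (J ⊕ J)))
    F cc W lam Lam (fun i t => near S 8 (actiP U ctr i) (pos t))
    (fun i i' => near S 16 (actiP U ctr i) (actiP U ctr i')) ((3 * D + 2) ^ 24)
    (fun i => (k4 i).nn) (fun i => (k4 i).bd) (fun i => (k4 i).loc) (fun i => (k4 i).sum)
    k1 k2 k3 (fun i i' t ht ht' => n2 8 8 _ _ _ ht (n1 8 _ _ ht')) hN
    (by
      have h := hH.hexp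
      push_cast
      exact h)
  have hω' : ∀ i, F i ω ≤ mean (F i) + lam i := fun i =>
    (hω i).trans_eq (congrArg (fun z => z + lam i) (acti_inst _ _ (F i)))
  exact ⟨ω, fun u hu => k5 (Sum.inl ⟨u, hu⟩) ω (hω' _),
    fun v => k5 (Sum.inr (Sum.inl v)) ω (hω' _),
    fun j => k5 (Sum.inr (Sum.inr (Sum.inl j))) ω (hω' _),
    fun j => k5 (Sum.inr (Sum.inr (Sum.inr j))) ω (hω' _)⟩

end Pool.TCU
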