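import Pool.Agent.Helper93.TCU.Stmts
import Pool.Agent.Helper93.TCU.Bas
import Pool.Agent.Helper3.TCS.J3

/-!
# TCU: module J3: bounded differences of `G3` (helper89, statement of helper93)
-/

set_option autoImplicit false
set_option linter.unusedSectionVars false
set_option linter.unusedVariables false

namespace Pool.TCU

open Pool.TC Pool.TCM Pool.TCS Finset
open scoped Classical

section

variable {V κ : Type} [Fintype V] [Fintype κ] {S : CS V κ} {U : Finset V} {L : V → Finset κ}
  {D l m K : ℕ} {x : ℝ} {q : V → κ → ℝ} {Lam : ℝ} {o : V → κ} {T : V → κ → ℝ}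

private theorem j3_C_card (hG : Cho S U L K o) {v : V} (hv : v ∈ U) :
    (J3_C S U o v).card ≤ 2 * K := by
  have h1 : J3_C S U o v ⊆ KP S U o v (o v) ∪
      univ.filter (fun w => w ∈ U ∧ S.r w (o w) = S.r v (o v)) := by
    intro w hw
    unfold J3_C at hw
    rw [mem_filter] at hw
    obtain ⟨-, hwU, -, h2⟩ := hw
    rw [mem_union]
    rcases h2 with h2 | h2
    · left
      unfold KP
      rw [mem_filter]
      exact ⟨mem_univ _, hwU, h2.1, h2.2.symm⟩
    · right
      rw [mem_filter]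
      exact ⟨mem_univ _, hwU, h2.symm⟩
  have h2 := (card_le_card h1).trans (card_union_le _ _)
  have h3 := hG.kP v hv (o v) (hG.mem v hv)
  have h4 := hG.kR (S.r v (o v))
  omega

/-- the options -/
private noncomputable def zz (U : Finset V) (L : V → Finset κ) : Finset (V × κ) :=
  univ.filter (fun p => p.1 ∈ U ∧ p.2 ∈ L p.1)

private theorem sum_zz (f : V → κ → ℝ) :
    ∑ w ∈ U, ∑ b ∈ L w, f w b = ∑ p ∈ zz U L, f p.1 p.2 := by
  rw [Finset.sum_sigma' U (fun w => L w) (fun w b => f w b)]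
  apply sum_nbij' (fun s => (s.1, s.2)) (fun p => ⟨p.1, p.2⟩)
  · intro s hs
    rw [mem_sigma] at hs
    unfold zz
    rw [mem_filter]
    exact ⟨mem_univ _, hs.1, hs.2⟩
  · intro p hp
    unfold zz at hp
    rw [mem_filter] at hp
    rw [mem_sigma]
    exact ⟨hp.2.1, hp.2.2⟩
  · intro s _
    rfl
  · intro p _
    rfl
  · intro s _
    rfl

private theorem cs_eq (v : V) :
    cs S U L T v = ∑ p ∈ zz U L, if S.r p.1 p.2 = v then T p.1 p.2 else 0 := by
  unfold cs Cv zz
  rw [← sum_filter, filter_filter]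
  apply sum_congr _ fun _ _ => rfl
  ext p
  rw [mem_filter, mem_filter]
  constructor
  · rintro ⟨h0, h1, h2, h3⟩
    exact ⟨h0, ⟨h1, h2⟩, h3⟩
  · rintro ⟨h0, ⟨h1, h2⟩, h3⟩
    exact ⟨h0, h1, h2, h3⟩

private theorem cs_nn (hT : ∀ w b, 0 ≤ T w b) (v : V) : 0 ≤ cs S U L T v :=
  sum_nonneg fun p _ => hT p.1 p.2

private theorem rs_nn (hT : ∀ w b, 0 ≤ T w b) (w : V) : 0 ≤ rs L T w :=
  sum_nonneg fun b _ => hT w b

/-- the weight of a vertex -/
private noncomputable def av (S : CS V κ) (U : Finset V) (L : V → Finset κ) (o : V → κ)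
    (T : V → κ → ℝ) (y : V) : ℝ := rs L T y + cs S U L T (S.r y (o y))

private theorem av_nn (hT : ∀ w b, 0 ≤ T w b) (y : V) : 0 ≤ av S U L o T y :=
  add_nonneg (rs_nn hT y) (cs_nn hT _)

/-- the vertices whose status can be changed by the activity of `t` -/
private noncomputable def yy (S : CS V κ) (U : Finset V) (o : V → κ) (t : V) : Finset V :=
  univ.filter (fun y => y ∈ U ∧ t ∈ U ∧ (y = t ∨ conf S o y t))

/-- the bounds for the differences -/
private noncomputable def ccj (S : CS V κ) (U : Finset V) (L : V → Finset κ) (o : V → κ)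
    (T : V → κ → ℝ) : Lab V κ → ℝ
  | Sum.inl (Sum.inl t) => ∑ y ∈ yy S U o t, av S U L o T y
  | Sum.inl (Sum.inr t) => if t ∈ U then av S U L o T t else 0
  | Sum.inr (Sum.inl v) => cs S U L T v
  | Sum.inr (Sum.inr p) => if p ∈ zz U L then T p.1 p.2 else 0

private theorem ccj_nn (hT : ∀ w b, 0 ≤ T w b) (t : Lab V κ) : 0 ≤ ccj S U L o T t := by
  rcases t with (t | t) | (v | p)
  · exact sum_nonneg fun y _ => av_nn hT y
  · show (0 : ℝ) ≤ if t ∈ U then av S U L o T t else 0
    split_ifs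
    · exact av_nn hT t
    · exact le_rfl
  · exact cs_nn hT v
  · show (0 : ℝ) ≤ if p ∈ zz U L then T p.1 p.2 else 0
    split_ifs
    · exact hT _ _
    · exact le_rfl

/-- the property of a term -/
private def pp3 (S : CS V κ) (U : Finset V) (L : V → Finset κ) (l m K : ℕ) (x : ℝ)
    (q : V → κ → ℝ) (o : V → κ) (ω : Lab V κ → Fin (m ^ (2 * K + 1))) (p : V × κ) : Prop :=
  ¬ retv S U o m K ω p.1 ∧ nR S U o m K ω p.1 p.2 ∧
    ¬ bkv S U L l m K x ω (S.r p.1 p.2) ∧ ¬ ekv S U L l m K q o ω p.1 p.2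

private theorem j3_diff (hT : ∀ w b, 0 ≤ T w b) (ω ω' : Lab V κ → Fin (m ^ (2 * K + 1))) :
    |G3 S U L l m K x q o T ω - G3 S U L l m K x q o T ω'| ≤
      (∑ y ∈ univ.filter (fun y => ¬ (retv S U o m K ω y ↔ retv S U o m K ω' y)),
        av S U L o T y) +
      (∑ v ∈ univ.filter (fun v => ¬ (bkv S U L l m K x ω v ↔ bkv S U L l m K x ω' v)),
        cs S U L T v) +
      ∑ p ∈ (zz U L).filter (fun p => ¬ (ekv S U L l m K q o ω p.1 p.2 ↔
        ekv S U L l m K q o ω' p.1 p.2)), T p.1 p.2 := by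
  have hG : ∀ ω : Lab V κ → Fin (m ^ (2 * K + 1)), G3 S U L l m K x q o T ω =
      ∑ p ∈ zz U L, if pp3 S U L l m K x q o ω p then T p.1 p.2 else 0 := by
    intro ω
    unfold G3
    rw [sum_zz (fun w b => if ¬ retv S U o m K ω w ∧ nR S U o m K ω w b ∧
      ¬ bkv S U L l m K x ω (S.r w b) ∧ ¬ ekv S U L l m K q o ω w b then T w b else 0)]
    apply sum_congr rfl
    intro p _
    by_cases h : pp3 S U L l m K x q o ω p
    · rw [if_pos h]
      exact if_pos h
    · rw [if_neg h]
      exact if_neg h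
  obtain ⟨Y, hY⟩ : ∃ Y : Finset V, Y = univ.filter
    (fun y => ¬ (retv S U o m K ω y ↔ retv S U o m K ω' y)) := ⟨_, rfl⟩
  obtain ⟨B, hB⟩ : ∃ B : Finset V, B = univ.filter
    (fun v => ¬ (bkv S U L l m K x ω v ↔ bkv S U L l m K x ω' v)) := ⟨_, rfl⟩
  rw [← hY, ← hB]
  have hY' : ∀ y, y ∈ Y ↔ ¬ (retv S U o m K ω y ↔ retv S U o m K ω' y) := by
    intro y
    rw [hY, mem_filter]
    exact and_iff_right (mem_univ y)
  have hB' : ∀ v, v ∈ B ↔ ¬ (bkv S U L l m K x ω v ↔ bkv S U L l m K x ω' v) := by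
    intro v
    rw [hB, mem_filter]
    exact and_iff_right (mem_univ v)
  have hYU : ∀ y ∈ Y, y ∈ U := by
    intro y hy
    by_contra hyU
    apply (hY' y).1 hy
    constructor
    · intro h
      exact absurd h.1 hyU
    · intro h
      exact absurd h.1 hyU
  rw [hG, hG, ← sum_sub_distrib]
  refine (abs_sum_le_sum_abs _ _).trans ?_
  -- termwise
  have hterm : ∀ p ∈ zz U L, |(if pp3 S U L l m K x q o ω p then T p.1 p.2 else 0) -
      (if pp3 S U L l m K x q o ω' p then T p.1 p.2 else 0)| ≤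
      (∑ y ∈ Y, if y = p.1 then T p.1 p.2 else 0) +
      (∑ y ∈ Y, if S.r p.1 p.2 = S.r y (o y) then T p.1 p.2 else 0) +
      (∑ v ∈ B, if S.r p.1 p.2 = v then T p.1 p.2 else 0) +
      (if ¬ (ekv S U L l m K q o ω p.1 p.2 ↔ ekv S U L l m K q o ω' p.1 p.2)
        then T p.1 p.2 else 0) := by
    intro p hp
    have hTp := hT p.1 p.2
    have a1 : 0 ≤ ∑ y ∈ Y, (if y = p.1 then T p.1 p.2 else 0) :=
      sum_nonneg fun y _ => by split_ifs <;> linarith
    have a2 : 0 ≤ ∑ y ∈ Y, (if S.r p.1 p.2 = S.r y (o y) then T p.1 p.2 else 0) :=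
      sum_nonneg fun y _ => by split_ifs <;> linarith
    have a3 : 0 ≤ ∑ v ∈ B, (if S.r p.1 p.2 = v then T p.1 p.2 else 0) :=
      sum_nonneg fun y _ => by split_ifs <;> linarith
    have a4 : 0 ≤ (if ¬ (ekv S U L l m K q o ω p.1 p.2 ↔ ekv S U L l m K q o ω' p.1 p.2)
        then T p.1 p.2 else 0) := by split_ifs <;> linarith
    by_cases hpp : pp3 S U L l m K x q o ω p ↔ pp3 S U L l m K x q o ω' p
    · have h1 : (if pp3 S U L l m K x q o ω p then T p.1 p.2 else 0) =
          (if pp3 S U L l m K x q o ω' p then T p.1 p.2 else 0) := by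
        by_cases h2 : pp3 S U L l m K x q o ω p
        · rw [if_pos h2, if_pos (hpp.1 h2)]
        · rw [if_neg h2, if_neg fun h3 => h2 (hpp.2 h3)]
      rw [h1, sub_self, abs_zero]
      linarith
    · have hle : |(if pp3 S U L l m K x q o ω p then T p.1 p.2 else 0) -
          (if pp3 S U L l m K x q o ω' p then T p.1 p.2 else 0)| ≤ T p.1 p.2 := by
        split_ifs
        · rw [sub_self, abs_zero]
          exact hTp
        · rw [sub_zero, abs_of_nonneg hTp]
        · rw [zero_sub, abs_neg, abs_of_nonneg hTp]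
        · rw [sub_self, abs_zero]
          exact hTp
      refine hle.trans ?_
      by_cases c1 : retv S U o m K ω p.1 ↔ retv S U o m K ω' p.1
      swap
      · have h2 : T p.1 p.2 ≤ ∑ y ∈ Y, (if y = p.1 then T p.1 p.2 else 0) := by
          have h3 := single_le_sum (f := fun y => if y = p.1 then T p.1 p.2 else 0)
            (fun y _ => by show (0 : ℝ) ≤ if y = p.1 then T p.1 p.2 else 0
                           split_ifs <;> linarith) ((hY' p.1).2 c1)
          beta_reduce at h3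
          rw [if_pos rfl] at h3
          exact h3
        linarith
      by_cases c2 : nR S U o m K ω p.1 p.2 ↔ nR S U o m K ω' p.1 p.2
      swap
      · have h4 : ∃ y ∈ Y, S.r p.1 p.2 = S.r y (o y) := by
          by_contra hno
          apply c2
          unfold nR
          refine forall₂_congr fun w hw => ?_
          by_contra hch
          apply hno
          refine ⟨w, (hY' w).2 fun h => hch (not_congr h), ?_⟩
          unfold KR at hw
          exact (mem_filter.1 hw).2.2.2.symm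
        obtain ⟨y, hy, hye⟩ := h4
        have h2 : T p.1 p.2 ≤
            ∑ y ∈ Y, (if S.r p.1 p.2 = S.r y (o y) then T p.1 p.2 else 0) := by
          have h3 := single_le_sum
            (f := fun y => if S.r p.1 p.2 = S.r y (o y) then T p.1 p.2 else 0)
            (fun y _ => by show (0 : ℝ) ≤ if S.r p.1 p.2 = S.r y (o y) then T p.1 p.2 else 0
                           split_ifs <;> linarith) hy
          beta_reduce at h3
          rw [if_pos hye] at h3
          exact h3
        linarith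
      by_cases c3 : bkv S U L l m K x ω (S.r p.1 p.2) ↔ bkv S U L l m K x ω' (S.r p.1 p.2)
      swap
      · have h2 : T p.1 p.2 ≤ ∑ v ∈ B, (if S.r p.1 p.2 = v then T p.1 p.2 else 0) := by
          have h3 := single_le_sum (f := fun v => if S.r p.1 p.2 = v then T p.1 p.2 else 0)
            (fun y _ => by show (0 : ℝ) ≤ if S.r p.1 p.2 = y then T p.1 p.2 else 0
                           split_ifs <;> linarith) ((hB' (S.r p.1 p.2)).2 c3)
          beta_reduce at h3
          rw [if_pos rfl] at h3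
          exact h3
        linarith
      by_cases c4 : ekv S U L l m K q o ω p.1 p.2 ↔ ekv S U L l m K q o ω' p.1 p.2
      swap
      · rw [if_pos c4]
        linarith
      exfalso
      apply hpp
      unfold pp3
      rw [c1, c2, c3, c4]
  refine (sum_le_sum hterm).trans ?_
  rw [sum_add_distrib, sum_add_distrib, sum_add_distrib]
  have b1 : ∑ p ∈ zz U L, ∑ y ∈ Y, (if y = p.1 then T p.1 p.2 else 0) = ∑ y ∈ Y, rs L T y := by
    rw [← sum_zz (fun w b => ∑ y ∈ Y, (if y = w then T w b else 0))]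
    have h1 : ∀ w ∈ U, ∑ b ∈ L w, ∑ y ∈ Y, (if y = w then T w b else 0) =
        if w ∈ Y then rs L T w else 0 := by
      intro w _
      unfold rs
      by_cases hwY : w ∈ Y
      · rw [if_pos hwY]
        apply sum_congr rfl
        intro b _
        rw [sum_ite_eq' Y w (fun _ => T w b), if_pos hwY]
      · rw [if_neg hwY]
        apply sum_eq_zero
        intro b _
        rw [sum_ite_eq' Y w (fun _ => T w b), if_neg hwY]
    rw [sum_congr rfl h1, ← sum_filter]
    apply sum_congr _ fun _ _ => rfl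
    ext y
    rw [mem_filter]
    exact ⟨fun h => h.2, fun h => ⟨hYU y h, h⟩⟩
  have b2 : ∑ p ∈ zz U L, ∑ y ∈ Y, (if S.r p.1 p.2 = S.r y (o y) then T p.1 p.2 else 0) =
      ∑ y ∈ Y, cs S U L T (S.r y (o y)) := by
    rw [sum_comm]
    apply sum_congr rfl
    intro y _
    rw [cs_eq]
  have b3 : ∑ p ∈ zz U L, ∑ v ∈ B, (if S.r p.1 p.2 = v then T p.1 p.2 else 0) =
      ∑ v ∈ B, cs S U L T v := by
    rw [sum_comm]
    apply sum_congr rfl
    intro y _
    rw [cs_eq]
  have b5 : ∑ y ∈ Y, av S U L o T y = ∑ y ∈ Y, rs L T y + ∑ y ∈ Y, cs S U L T (S.r y (o y)) := by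
    unfold av
    rw [sum_add_distrib]
  rw [b1, b2, b3, b5, ← sum_filter]

private theorem j3_bd (hT : ∀ w b, 0 ≤ T w b) (t : Lab V κ)
    (ω ω' : Lab V κ → Fin (m ^ (2 * K + 1))) (h : ∀ t', t' ≠ t → ω t' = ω' t') :
    |G3 S U L l m K x q o T ω - G3 S U L l m K x q o T ω'| ≤ ccj S U L o T t := by
  refine (j3_diff hT ω ω').trans ?_
  have hbk : ∀ v : V, t ≠ Sum.inr (Sum.inl v) →
      (bkv S U L l m K x ω v ↔ bkv S U L l m K x ω' v) := by
    intro v hv
    unfold bkv
    rw [h _ hv.symm]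
  have hek : ∀ (w : V) (b : κ), t ≠ Sum.inr (Sum.inr (w, b)) →
      (ekv S U L l m K q o ω w b ↔ ekv S U L l m K q o ω' w b) := by
    intro w b hv
    unfold ekv
    rw [h _ hv.symm]
  have hbk0 : (∀ v : V, t ≠ Sum.inr (Sum.inl v)) →
      ∑ v ∈ univ.filter (fun v => ¬ (bkv S U L l m K x ω v ↔ bkv S U L l m K x ω' v)),
        cs S U L T v = 0 := by
    intro hv
    apply sum_eq_zero
    intro v hv'
    exact absurd (hbk v (hv v)) (mem_filter.1 hv').2
  have hek0 : (∀ p : V × κ, t ≠ Sum.inr (Sum.inr p)) →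
      ∑ p ∈ (zz U L).filter (fun p => ¬ (ekv S U L l m K q o ω p.1 p.2 ↔
        ekv S U L l m K q o ω' p.1 p.2)), T p.1 p.2 = 0 := by
    intro hv
    apply sum_eq_zero
    intro p hp
    exact absurd (hek p.1 p.2 (hv _)) (mem_filter.1 hp).2
  have hret0 : (∀ v : V, t ≠ Sum.inl (Sum.inl v) ∧ t ≠ Sum.inl (Sum.inr v)) →
      ∑ y ∈ univ.filter (fun y => ¬ (retv S U o m K ω y ↔ retv S U o m K ω' y)),
        av S U L o T y = 0 := by
    intro hv
    apply sum_eq_zero
    intro y hy
    exfalso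
    obtain ⟨-, h2⟩ := J3_ret h (mem_filter.1 hy).2
    rcases h2 with h2 | h2 | ⟨w', -, -, h2⟩
    · exact (hv y).1 h2
    · exact (hv y).2 h2
    · exact (hv w').1 h2
  rcases t with (t | t) | (v | p)
  · rw [hbk0 (fun _ => by simp), hek0 (fun _ => by simp), add_zero, add_zero]
    show _ ≤ ∑ y ∈ yy S U o t, av S U L o T y
    apply sum_le_sum_of_subset_of_nonneg
    · intro y hy
      obtain ⟨hyU, h2⟩ := J3_ret h (mem_filter.1 hy).2
      unfold yy
      rw [mem_filter]
      refine ⟨mem_univ _, hyU, ?_⟩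
      rcases h2 with h2 | h2 | ⟨w', hw', h3, h2⟩
      · have h4 : t = y := by simpa using h2
        exact ⟨h4 ▸ hyU, Or.inl h4.symm⟩
      · exact absurd h2 (by simp)
      · have h4 : t = w' := by simpa using h2
        rw [h4]
        exact ⟨hw', Or.inr h3⟩
    · intro y _ _
      exact av_nn hT y
  · rw [hbk0 (fun _ => by simp), hek0 (fun _ => by simp), add_zero, add_zero]
    show _ ≤ if t ∈ U then av S U L o T t else 0
    have h1 : univ.filter (fun y => ¬ (retv S U o m K ω y ↔ retv S U o m K ω' y)) ⊆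
        (univ.filter (fun y => y ∈ U ∧ y = t)) := by
      intro y hy
      obtain ⟨hyU, h2⟩ := J3_ret h (mem_filter.1 hy).2
      rw [mem_filter]
      refine ⟨mem_univ _, hyU, ?_⟩
      rcases h2 with h2 | h2 | ⟨w', hw', h3, h2⟩
      · exact absurd h2 (by simp)
      · have h4 : t = y := by simpa using h2
        exact h4.symm
      · exact absurd h2 (by simp)
    refine (sum_le_sum_of_subset_of_nonneg h1 fun y _ _ => av_nn hT y).trans ?_
    by_cases ht : t ∈ U
    · rw [if_pos ht]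
      have h2 : univ.filter (fun y => y ∈ U ∧ y = t) = {t} := by
        ext y
        rw [mem_filter, mem_singleton]
        exact ⟨fun h => h.2.2, fun h => ⟨mem_univ _, h ▸ ht, h⟩⟩
      rw [h2, sum_singleton]
    · rw [if_neg ht]
      apply le_of_eq
      apply sum_eq_zero
      intro y hy
      obtain ⟨-, h3, h4⟩ := mem_filter.1 hy
      exact absurd (h4 ▸ h3) ht
  · rw [hret0 (fun _ => ⟨by simp, by simp⟩), hek0 (fun _ => by simp), add_zero, zero_add]
    show _ ≤ cs S U L T v
    have h1 : univ.filter (fun v' => ¬ (bkv S U L l m K x ω v' ↔ bkv S U L l m K x ω' v')) ⊆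
        {v} := by
      intro v' hv'
      rw [mem_singleton]
      by_contra hne
      exact (mem_filter.1 hv').2 (hbk v' (by
        intro h2
        have h3 : v = v' := by simpa using h2
        exact hne h3.symm))
    refine (sum_le_sum_of_subset_of_nonneg h1 fun y _ _ => cs_nn hT y).trans ?_
    rw [sum_singleton]
  · rw [hret0 (fun _ => ⟨by simp, by simp⟩), hbk0 (fun _ => by simp), add_zero, zero_add]
    show _ ≤ if p ∈ zz U L then T p.1 p.2 else 0
    have h1 : (zz U L).filter (fun p => ¬ (ekv S U L l m K q o ω p.1 p.2 ↔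
        ekv S U L l m K q o ω' p.1 p.2)) ⊆ (zz U L).filter (fun p' => p' = p) := by
      intro p' hp'
      rw [mem_filter] at hp' ⊢
      refine ⟨hp'.1, ?_⟩
      by_contra hne
      exact hp'.2 (hek p'.1 p'.2 (by
        intro h2
        have h3 : p = p' := by simpa using h2
        exact hne h3.symm))
    refine (sum_le_sum_of_subset_of_nonneg h1 fun y _ _ => hT _ _).trans ?_
    rw [sum_filter, sum_ite_eq' (zz U L) p (fun p => T p.1 p.2)]

private theorem j3_rs {v : V} (hloc : ∀ w b, T w b ≠ 0 → near S 3 v w) {y : V}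
    (h : rs L T y ≠ 0) : near S 3 v y := by
  by_contra hn
  apply h
  unfold rs
  apply sum_eq_zero
  intro b _
  by_contra hb
  exact hn (hloc y b hb)

private theorem j3_cs {v : V} (hloc : ∀ w b, T w b ≠ 0 → near S 3 v w) {y : V}
    (h : cs S U L T y ≠ 0) : near S 4 v y := by
  by_contra hn
  apply h
  unfold cs
  apply sum_eq_zero
  intro p hp
  by_contra hb
  apply hn
  unfold Cv at hp
  have h1 := (mem_filter.1 hp).2.2.2
  exact J3_near_stp (hloc p.1 p.2 hb) (Or.inr (Or.inr (Or.inl ⟨p.2, h1⟩)))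

private theorem j3_av {v : V} (hloc : ∀ w b, T w b ≠ 0 → near S 3 v w) {y : V}
    (h : av S U L o T y ≠ 0) : near S 5 v y := by
  by_cases h1 : rs L T y = 0
  · have h2 : cs S U L T (S.r y (o y)) ≠ 0 := by
      intro h3
      apply h
      unfold av
      rw [h1, h3, add_zero]
    exact J3_near_stp (j3_cs hloc h2) (Or.inr (Or.inr (Or.inr ⟨o y, rfl⟩)))
  · exact J3_near_le (by norm_num) (j3_rs hloc h1)

private theorem ccj_loc {v : V} (hloc : ∀ w b, T w b ≠ 0 → near S 3 v w) (t : Lab V κ)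
    (ht : ccj S U L o T t ≠ 0) : near S 8 v (pos t) := by
  rcases t with (t | t) | (t | p)
  · have h1 : ∑ y ∈ yy S U o t, av S U L o T y ≠ 0 := ht
    show near S 8 v t
    obtain ⟨y, hy, hy0⟩ := exists_ne_zero_of_sum_ne_zero h1
    have h2 := j3_av hloc hy0
    unfold yy at hy
    obtain ⟨-, -, -, h3⟩ := mem_filter.1 hy
    rcases h3 with h3 | h3
    · rw [← h3]
      exact J3_near_le (by norm_num) h2
    · exact J3_near_le (n := 7) (by norm_num) (J3_conf_near h2 h3)
  · have h1 : (if t ∈ U then av S U L o T t else 0) ≠ 0 := ht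
    show near S 8 v t
    split_ifs at h1 with h2
    · exact J3_near_le (by norm_num) (j3_av hloc h1)
    · exact absurd rfl h1
  · have h1 : cs S U L T t ≠ 0 := ht
    exact J3_near_le (by norm_num) (j3_cs hloc h1)
  · have h1 : (if p ∈ zz U L then T p.1 p.2 else 0) ≠ 0 := ht
    show near S 8 v p.1
    split_ifs at h1 with h2
    · exact J3_near_le (by norm_num) (hloc p.1 p.2 h1)
    · exact absurd rfl h1

private theorem yy_card (hG : Cho S U L K o) (t : V) : (yy S U o t).card ≤ 2 * K + 1 := by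
  by_cases ht : t ∈ U
  · have h1 : yy S U o t ⊆ insert t (J3_C S U o t) := by
      intro y hy
      unfold yy at hy
      obtain ⟨-, hyU, -, h2⟩ := mem_filter.1 hy
      rw [mem_insert]
      rcases h2 with h2 | h2
      · exact Or.inl h2
      · right
        unfold J3_C
        rw [mem_filter]
        exact ⟨mem_univ _, hyU, J3_conf_symm h2⟩
    have h2 := (card_le_card h1).trans (card_insert_le _ _)
    have h3 := j3_C_card hG ht
    omega
  · have h1 : yy S U o t = ∅ := by
      rw [eq_empty_iff_forall_notMem]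
      intro y hy
      unfold yy at hy
      exact ht (mem_filter.1 hy).2.2.1
    rw [h1, card_empty]
    omega

private theorem av_sq (hK : 1 ≤ K) (hG : Cho S U L K o) (hT : ∀ w b, 0 ≤ T w b) :
    ∑ y ∈ U, av S U L o T y ^ 2 ≤ 2 * K * sq S U L T := by
  have h1 : ∀ y ∈ U, av S U L o T y ^ 2 ≤
      2 * rs L T y ^ 2 + 2 * cs S U L T (S.r y (o y)) ^ 2 := by
    intro y _
    unfold av
    nlinarith [sq_nonneg (rs L T y - cs S U L T (S.r y (o y)))]
  refine (sum_le_sum h1).trans ?_
  rw [sum_add_distrib, ← mul_sum, ← mul_sum]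
  have h2 : ∑ y ∈ U, cs S U L T (S.r y (o y)) ^ 2 ≤ K * ∑ v, cs S U L T v ^ 2 := by
    have h3 : ∑ y ∈ U, cs S U L T (S.r y (o y)) ^ 2 =
        ∑ v, ∑ y ∈ U, if S.r y (o y) = v then cs S U L T v ^ 2 else 0 := by
      rw [sum_comm]
      apply sum_congr rfl
      intro y _
      rw [sum_ite_eq univ (S.r y (o y)) (fun v => cs S U L T v ^ 2), if_pos (mem_univ _)]
    rw [h3, mul_sum]
    apply sum_le_sum
    intro v _
    rw [← sum_filter, sum_const, nsmul_eq_mul]
    apply mul_le_mul_of_nonneg_right _ (sq_nonneg _)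
    have h4 : (U.filter (fun y => S.r y (o y) = v)).card ≤ K := by
      refine le_trans (card_le_card ?_) (hG.kR v)
      intro y hy
      rw [mem_filter] at hy ⊢
      exact ⟨mem_univ _, hy.1, hy.2⟩
    exact_mod_cast h4
  have h5 : 0 ≤ ∑ w ∈ U, rs L T w ^ 2 := sum_nonneg fun _ _ => sq_nonneg _
  have h6 : (1 : ℝ) ≤ K := by exact_mod_cast hK
  unfold sq
  nlinarith

private theorem ccj_sum (hK : 24 ≤ K) (hG : Cho S U L K o) (hT : ∀ w b, 0 ≤ T w b) :
    (∑ t, ccj S U L o T t ^ 2) ≤ 10 * (K : ℝ) ^ 3 * sq S U L T := by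
  have hav := av_sq (by omega) hG hT
  have hK' : (24 : ℝ) ≤ K := by exact_mod_cast hK
  have hA : 0 ≤ ∑ y ∈ U, av S U L o T y ^ 2 := sum_nonneg fun _ _ => sq_nonneg _
  have s1 : ∑ t : V, ccj S U L o T (Sum.inl (Sum.inl t)) ^ 2 ≤
      (2 * K + 1) ^ 2 * ∑ y ∈ U, av S U L o T y ^ 2 := by
    have c1 : ∀ t : V, ccj S U L o T (Sum.inl (Sum.inl t)) ^ 2 ≤
        (2 * K + 1) * ∑ y ∈ U, if t ∈ yy S U o y then av S U L o T y ^ 2 else 0 := by
      intro t
      show (∑ y ∈ yy S U o t, av S U L o T y) ^ 2 ≤ _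
      have c2 := sq_sum_le_card_mul_sum_sq (s := yy S U o t) (f := fun y => av S U L o T y)
      have c3 : ((yy S U o t).card : ℝ) ≤ 2 * K + 1 := by exact_mod_cast yy_card hG t
      have c4 : 0 ≤ ∑ y ∈ yy S U o t, av S U L o T y ^ 2 := sum_nonneg fun _ _ => sq_nonneg _
      refine c2.trans ((mul_le_mul_of_nonneg_right c3 c4).trans (le_of_eq ?_))
      congr 1
      rw [← sum_filter]
      apply sum_congr _ fun _ _ => rfl
      ext y
      rw [mem_filter]
      unfold yy
      rw [mem_filter, mem_filter]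
      constructor
      · rintro ⟨-, h1, h2, h3⟩
        exact ⟨h1, mem_univ _, h2, h1, h3.imp Eq.symm J3_conf_symm⟩
      · rintro ⟨h1, -, h2, -, h3⟩
        exact ⟨mem_univ _, h1, h2, h3.imp Eq.symm J3_conf_symm⟩
    refine (sum_le_sum fun t _ => c1 t).trans ?_
    rw [← mul_sum, sum_comm, pow_two, mul_assoc]
    apply mul_le_mul_of_nonneg_left _ (by positivity)
    rw [mul_sum]
    apply sum_le_sum
    intro y hy
    rw [← sum_filter, sum_const, nsmul_eq_mul]
    apply mul_le_mul_of_nonneg_right _ (sq_nonneg _)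
    have c5 : ((univ : Finset V).filter (fun t => t ∈ yy S U o y)).card ≤ 2 * K + 1 := by
      refine le_trans (card_le_card ?_) (yy_card hG y)
      intro t ht
      exact (mem_filter.1 ht).2
    exact_mod_cast c5
  have s2 : ∑ t : V, ccj S U L o T (Sum.inl (Sum.inr t)) ^ 2 = ∑ y ∈ U, av S U L o T y ^ 2 := by
    have c1 : ∀ t : V, ccj S U L o T (Sum.inl (Sum.inr t)) ^ 2 =
        if t ∈ U then av S U L o T t ^ 2 else 0 := by
      intro t
      show (if t ∈ U then av S U L o T t else 0) ^ 2 = _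
      split_ifs
      · rfl
      · norm_num
    rw [sum_congr rfl fun t _ => c1 t, sum_ite_mem, univ_inter]
  have s3 : ∑ v : V, ccj S U L o T (Sum.inr (Sum.inl v)) ^ 2 = ∑ v, cs S U L T v ^ 2 := rfl
  have s4 : ∑ p : V × κ, ccj S U L o T (Sum.inr (Sum.inr p)) ^ 2 ≤ ∑ w ∈ U, rs L T w ^ 2 := by
    have c1 : ∀ p : V × κ, ccj S U L o T (Sum.inr (Sum.inr p)) ^ 2 =
        if p ∈ zz U L then T p.1 p.2 ^ 2 else 0 := by
      intro t
      show (if t ∈ zz U L then T t.1 t.2 else 0) ^ 2 = _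
      split_ifs
      · rfl
      · norm_num
    rw [sum_congr rfl fun t _ => c1 t, sum_ite_mem, univ_inter, ← sum_zz (fun w b => T w b ^ 2)]
    apply sum_le_sum
    intro w _
    unfold rs
    rw [pow_two, sum_mul]
    apply sum_le_sum
    intro b hb
    rw [pow_two]
    exact mul_le_mul_of_nonneg_left (single_le_sum (fun b _ => hT w b) hb) (hT w b)
  rw [Fintype.sum_sum_type, Fintype.sum_sum_type, Fintype.sum_sum_type, s2, s3]
  have hs : sq S U L T = (∑ w ∈ U, rs L T w ^ 2) + ∑ v, cs S U L T v ^ 2 := rfl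
  have hs0 : 0 ≤ sq S U L T := by
    rw [hs]
    exact add_nonneg (sum_nonneg fun _ _ => sq_nonneg _) (sum_nonneg fun _ _ => sq_nonneg _)
  have h1 : ((2 * (K : ℝ) + 1) ^ 2 + 1) * ∑ y ∈ U, av S U L o T y ^ 2 ≤
      ((2 * (K : ℝ) + 1) ^ 2 + 1) * (2 * K * sq S U L T) :=
    mul_le_mul_of_nonneg_left hav (by positivity)
  have h2 : ((2 * (K : ℝ) + 1) ^ 2 + 1) * (2 * K) + 1 ≤ 10 * (K : ℝ) ^ 3 := by
    have e1 : (K : ℝ) ^ 3 = K * (K * K) := by ring
    have e2 : 24 * ((K : ℝ) * K) ≤ K * (K * K) := mul_le_mul_of_nonneg_right hK' (by positivity)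
    nlinarith
  have h3 : (((2 * (K : ℝ) + 1) ^ 2 + 1) * (2 * K) + 1) * sq S U L T ≤
      10 * (K : ℝ) ^ 3 * sq S U L T := mul_le_mul_of_nonneg_right h2 hs0
  nlinarith

end

theorem thm_J3 : St_J3 := by
  intro V κ _ _ S U L D l m K x q Lam o T v hH hG hT hloc
  exact ⟨ccj S U L o T, ccj_nn hT, j3_bd hT, ccj_sum hH.K24 hG hT, ccj_loc hloc⟩

end Pool.TCU
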